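import Pool.Agent.TH93.CA.Sp

/-!
# How much advice is needed to accept the complements of sparse sets in `NP`?

`InNTAdv (fun n => p.eval n) a A L` says that `L` is in `NP` relative to the oracle `A` with at most
`a(n)` bits of advice (the certificates have length at most `p(n)`).

1. Relative to every oracle: if `L` is in `NP` and has at most `s(n)` members of every length `n`,
then the complement of `L` is in `NP` with `a(n)` bits of advice as soon as `s(n) + 1 < 2 ^ (a(n) + 1)`
(the advice is the number of the members). For `s(n) = n ^ k` and `n = 2 ^ j` this means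
`a(n) ≥ k log n`.

2. Relative to almost every oracle, for every `k ≥ 1` there is a language `L` in `NP` with at most
`n ^ k` members of every length `n`, whose complement is in `NP` with `a(n)` bits of advice only if
`a(n) > k log n - 3 (log (k log n) + 1)` for all large `n` of the form `2 ^ j`.

So relative to a random oracle the number of the advice bits needed for the complements of sparse
sets in `NP` is the logarithm of their census, up to `O(log log n)`.
-/

set_option autoImplicit false

namespace Pool.Agent.Results.MP_6cef49_lc.AdviceForSparseSets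

open Pool.Agent.NPC Pool.Agent.H620R2.Gauge Pool.Agent.H622R2.Exp Pool.Agent.TH678.ETH
open Pool.Agent.TH93.CA Filter

theorem result :
    (∀ (A : Oracle) (L : Set (List Bool)) (s : Polynomial ℕ) (a : ℕ → ℕ), IsNP A L →
      (∀ n, Set.ncard {x | x ∈ L ∧ x.length = n} ≤ s.eval n) →
      (∀ n, s.eval n + 1 < 2 ^ (a n + 1)) →
      ∃ p : Polynomial ℕ, InNTAdv (fun n => p.eval n) a A Lᶜ) ∧
    ∀ᵐ A ∂ranO, ∀ k : ℕ, 1 ≤ k → ∃ L : Set (List Bool), IsNP A L ∧
      (∀ n, Set.ncard {x | x ∈ L ∧ x.length = n} ≤ n ^ k) ∧
      ∀ (p : Polynomial ℕ) (a : ℕ → ℕ), InNTAdv (fun n => p.eval n) a A Lᶜ →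
        ∀ᶠ j in atTop, k * j < a (2 ^ j) + 3 * (Nat.log 2 (k * j) + 1) := by
  refine ⟨fun A L s a hL hs ha => census_np ha hs hL, ?_⟩
  filter_upwards [sp_hard] with A hA k hk
  exact ⟨SL k A, sl_np k A, sl_sparse k A, hA k hk⟩

end Pool.Agent.Results.MP_6cef49_lc.AdviceForSparseSets
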