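import Pool.Agent.TH771.CX.NLow4
import Pool.Agent.TH771.CX.NClose
import Pool.Agent.TH93.NX.Main

/-!
# How many strings of a random oracle must be changed to make `NEXP` closed under complement?

Let `g` be a function. If for every `ε > 0` there are infinitely many `n` with
`g n ≤ ε log log log n`, then for almost every oracle `O`, every oracle `A` which is obtained from
`O` by at most `g` changes has `NEXP^A ≠ coNEXP^A`. Otherwise every oracle `O` whatsoever can be
changed at `g` strings so that `NEXP = coNEXP`. If moreover `g n ≤ ε log log n` infinitely often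
for every `ε > 0`, then for almost every `O`, whatever the changes are, some sparse set in `NP` is
not in `coNP`, and `NE ≠ coNE`.

The proof is described in `Pool/Agent/Results/MP_64fb07_lc/ChangedStrings.lean`.
-/

set_option autoImplicit false

namespace Pool.Agent.Results.MP_6cef49_lc.ChangedStrings

open Filter MeasureTheory Pool.Agent.NPC
open Pool.Agent.H628R3.RO (randomOracle)
open Pool.Agent.H620R2.Gauge Pool.Agent.H622R2.Exp Pool.Agent.W900.CH Pool.Agent.TH771.CX

theorem result (g : ℕ → ℝ) :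
    ((∀ ε : ℝ, 0 < ε → ∃ᶠ n : ℕ in atTop,
        g n ≤ ε * Real.logb 2 (Real.logb 2 (Real.logb 2 n))) →
      ∀ᵐ O ∂randomOracle, ∀ A, Close g O A → ∃ L, InNTime Pol A L ∧ ¬ InNTime Pol A Lᶜ) ∧
    ((¬ ∀ ε : ℝ, 0 < ε → ∃ᶠ n : ℕ in atTop,
        g n ≤ ε * Real.logb 2 (Real.logb 2 (Real.logb 2 n))) →
      (∀ O : Oracle, ∃ A, Close g O A ∧ ∀ L, InNTime Pol A L ↔ InNTime Pol A Lᶜ) ∧
      ((∀ ε : ℝ, 0 < ε → ∃ᶠ n : ℕ in atTop, g n ≤ ε * Real.logb 2 (Real.logb 2 n)) →
        ∀ᵐ O ∂randomOracle, ∀ A, Close g O A →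
          (∃ L, Sparse L ∧ IsNP A L ∧ ¬ IsNP A Lᶜ) ∧
          ∃ L, InNTime Lin A L ∧ ¬ InNTime Lin A Lᶜ)) := by
  refine ⟨fun hg => ?_, fun hg => ⟨fun O => ?_, fun hg2 => ?_⟩⟩
  · filter_upwards [ae_far_NEXP hg] with O hO A hA
    exact ⟨hit2 A, hit2_ntime good_Pol A, hO A hA⟩
  · push Not at hg
    obtain ⟨ε, hε, h⟩ := hg
    obtain ⟨A, h1, h2⟩ := exists_close_NEXP hε h O
    exact ⟨A, h1, fun L => ⟨h2 L, fun h3 => by simpa using h2 Lᶜ h3⟩⟩
  · filter_upwards [ae_far_NE hg2] with O hO A hA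
    refine ⟨?_, hit2 A, hit2_ntime good_Lin A, hO A hA⟩
    by_contra h3
    push Not at h3
    exact hO A hA (Pool.Agent.TH93.NX.hit2_of_sparse h3)

end Pool.Agent.Results.MP_6cef49_lc.ChangedStrings
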