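import Pool.Agent.TH93.NX.Main

/-!
# `NEXP = coNEXP` relative to an oracle, and the sparse sets in `NP`

For every gauge `f`, the set of the oracles relative to which `NEXP = coNEXP` is a null set for `f`
if and only if for every `ε > 0` there are infinitely many `N` with `f N ≤ (log log N) ^ ε`. The
same holds for the set of those among them relative to which some sparse set in `NP` is not in
`coNP`, and for every set `O` of oracles such that `NEXP` is closed under complement relative to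
every member of `O` and `O` contains all the oracles with `NEXP = coNEXP`, with a sparse set in
`NP \ coNP`, `NE ≠ coNE`, `EXP ≠ NEXP` and `NP ⊄ coNP/poly`.

On the other hand, the set of the oracles relative to which all the sparse sets in `NP` are in
`coNP` is a null set for the gauges with `f N ≤ ε log log N` infinitely often, for all `ε > 0`.

`InNTime Pol A` is the class `NEXP` relative to `A`, `InTime Pol A` is `EXP`, `InNTime Lin A` is
`NE`.
-/

set_option autoImplicit false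

namespace Pool.Agent.Results.MP_6cef49_lc.GaugeThreshold

open Pool.Agent.NPC Pool.Agent.H620R2.Gauge Pool.Agent.H622R2.Exp

theorem result (f : ℕ → ℝ) :
    (∀ O : Set Oracle,
      (∀ A : Oracle, (∀ L, InNTime Pol A L ↔ InNTime Pol A Lᶜ) →
        (∃ L, Sparse L ∧ IsNP A L ∧ ¬ IsNP A Lᶜ) →
        (∃ L, InNTime Lin A L ∧ ¬ InNTime Lin A Lᶜ) →
        (∃ L, InNTime Pol A L ∧ ¬ InTime Pol A L) →
        (∃ L, IsNP A L ∧ ¬ WithAdvice (IsNP A) Lᶜ) → A ∈ O) →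
      (∀ A ∈ O, ∀ L, InNTime Pol A L → InNTime Pol A Lᶜ) →
      (Null f O ↔ ∀ ε : ℝ, 0 < ε → ∃ᶠ N : ℕ in Filter.atTop,
        f N ≤ (Real.logb 2 (Real.logb 2 N)) ^ ε)) ∧
    (Null f {A : Oracle | ∀ L, InNTime Pol A L ↔ InNTime Pol A Lᶜ} ↔
      ∀ ε : ℝ, 0 < ε → ∃ᶠ N : ℕ in Filter.atTop, f N ≤ (Real.logb 2 (Real.logb 2 N)) ^ ε) ∧
    (Null f {A : Oracle | (∀ L, InNTime Pol A L ↔ InNTime Pol A Lᶜ) ∧
        ∃ L, Sparse L ∧ IsNP A L ∧ ¬ IsNP A Lᶜ} ↔
      ∀ ε : ℝ, 0 < ε → ∃ᶠ N : ℕ in Filter.atTop, f N ≤ (Real.logb 2 (Real.logb 2 N)) ^ ε) ∧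
    ((∀ ε : ℝ, 0 < ε → ∃ᶠ N : ℕ in Filter.atTop, f N ≤ ε * Real.logb 2 (Real.logb 2 N)) →
      Null f {A : Oracle | ∀ L, Sparse L → IsNP A L → IsNP A Lᶜ}) := by
  have key : ∀ O : Set Oracle,
      (∀ A : Oracle, (∀ L, InNTime Pol A L ↔ InNTime Pol A Lᶜ) →
        (∃ L, Sparse L ∧ IsNP A L ∧ ¬ IsNP A Lᶜ) →
        (∃ L, InNTime Lin A L ∧ ¬ InNTime Lin A Lᶜ) →
        (∃ L, InNTime Pol A L ∧ ¬ InTime Pol A L) →
        (∃ L, IsNP A L ∧ ¬ WithAdvice (IsNP A) Lᶜ) → A ∈ O) →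
      (∀ A ∈ O, ∀ L, InNTime Pol A L → InNTime Pol A Lᶜ) →
      (Null f O ↔ ∀ ε : ℝ, 0 < ε → ∃ᶠ N : ℕ in Filter.atTop,
        f N ≤ (Real.logb 2 (Real.logb 2 N)) ^ ε) := fun O h1 h2 =>
    Pool.Agent.TH93.NX.mainX f O
      (fun A a b c d e => h1 A a b ⟨_, hit2_ntime good_Lin A, c⟩ d e) h2
  exact ⟨key, key _ (fun A a _ _ _ _ => a) fun A hA L h => (hA L).1 h,
    key _ (fun A a b _ _ _ => ⟨a, b⟩) fun A hA L h => (hA.1 L).1 h,
    fun h => Pool.Agent.TH93.NX.null_sparse h⟩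

end Pool.Agent.Results.MP_6cef49_lc.GaugeThreshold
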