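import Pool.Agent.TH682.HX.Down

/-!
# `NEXP = coNEXP`, and membership in nonuniform permutation groups

Polynomial time is Mathlib's `Turing.TM2ComputableInPolyTime`, for functions on bit strings.

Theorem. `NEXP` is closed under complement if and only if the following class is: the sets in
nondeterministic quasi-polynomial time which have a quasi-polynomial-time many-one reduction to the
membership problem of nonuniform permutation groups; that is, for every input length `n` there is an
arbitrary subgroup `H` of a symmetric group, and `x` of length `n` is in the set if and only if a
permutation, computed from `x` and polylogarithmically many bits of advice in quasi-polynomial time,
is in `H`. (Closed under complement as a subclass of nondeterministic quasi-polynomial time: the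
complements are in nondeterministic quasi-polynomial time.)

For `NE` and `NP` see `MP_64fb07_lc.GroupMembership`; for `NEXP` the certificates have quasi-polynomial
length, since only then the sets over one letter correspond to `NEXP`. (It is not known whether
`NEXP = coNEXP` implies that sparse sets in `NP` have complements in `NP`: this is equivalent to
`NE = coNE`, by Hartmanis, Immerman and Sewelson.) The sets of the theorem can have exponentially
many elements of each length, for example if `H` has index two.

Proof. For the first direction, in the argument of Hartmanis, Immerman and Sewelson for sparse sets,
the census of the members is replaced by the largest number of insertions: a permutation is sifted
through a table that has at most one permutation for each pair (first point which is not fixed, its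
image), and it is inserted if it does not reach the identity; there are at most `N ^ 2` insertions
for permutations of `N` points. The set of the triples `(n, a, k)` such that some sequence of `k`
members of length `n` has `k` insertions (for the advice `a`) is in `NEXP`, hence so is its
complement. A certificate for `x ∉ A` is a number `a`, a sequence of `k` members with witnesses and
with `k` insertions, such that the sequence extended with `x` has `k + 1` insertions, and a
certificate for `(n, a, k + 1)` in the complementary set. If `x` were a member then the extended
sequence would contradict the last certificate, whatever `a` is. If `x` is not a member, then for the
correct advice and the largest `k`, the permutation of `x` is inserted, as otherwise it would be a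
product of permutations of members, hence in `H`. For the other direction, a set over one letter
reduces to the trivial group.
-/

set_option autoImplicit false

namespace Pool.Agent.Results.MP_6cef49_lc.GroupMembership

open Pool.Agent.NPC Pool.Agent.TH682.HX
open Pool.Agent.H660R2.NX (InNEXP)

/-- **`NEXP = coNEXP` and permutation groups.** `NEXP` is closed under complement if and only if the
complement of every set in nondeterministic quasi-polynomial time which reduces in quasi-polynomial
time to membership in nonuniform permutation groups is in nondeterministic quasi-polynomial time. -/
theorem result : (∀ L : Set (List Bool), InNEXP L → InNEXP Lᶜ) ↔
    ∀ A : Set (List Bool), InNQP A → QGroupMember A → InNQP Aᶜ :=
  ⟨fun h _ hA hG => compl_inNQP h hA hG,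
    fun h _ hL => compl_inNEXP (h _ (una_inNQP hL) (una_group _))⟩

end Pool.Agent.Results.MP_6cef49_lc.GroupMembership
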